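import Mathlib
import Pool.Agent.H719R3.FO.Top
import Pool.Agent.H719R3.FO.CUB
import Pool.Agent.H719R3.FO.CUB1
import Pool.Agent.H719R3.FO.CUB2

/-!
# Billiards in tables bounded by algebraic curves with many isotropic tangents

Ivrii's conjecture in the plane in a strong form: for convex tables bounded by an oval of an
algebraic curve which has many isotropic tangent lines (counted with contact orders), for instance
by an oval of a nonsingular cubic transversal to the line at infinity, circular cubics included,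
the set of `n`-periodic points of the billiard map is finite for every `n`; so there are only
countably many periodic points.

The plane is `ℂ`, and a curve is given by an equation `P (z, conj z) = 0` with
`P : MvPolynomial (Fin 2) ℂ`; the isotropic lines are the lines `X 0 = a` and `X 1 = b`.
-/

set_option autoImplicit false

open scoped ComplexConjugate

namespace Pool.Agent.Results.MP_249f74_an.FinitelyManyPeriodicOrbits

open Pool.Agent.H719R3.BG

/-- One step `(q, v) ↦ (q', v')` of the billiard map of the convex table `Ω`: `v` is a unit vector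
at the boundary point `q`, the ray from `q` in the direction `v` runs inside `Ω` until it hits the
boundary at `q'`, and `v'` is the mirror image of `v` in the tangent line of `Ω` at `q'` (the mirror
image of `v` in the line spanned by the unit vector `u` is `u² * conj v`). -/
def Bounce (Ω : Set ℂ) (x y : ℂ × ℂ) : Prop :=
  x.1 ∈ frontier Ω ∧ y.1 ∈ frontier Ω ∧ ‖x.2‖ = 1 ∧
    (∃ t : ℝ, 0 < t ∧ y.1 = x.1 + t * x.2) ∧ openSegment ℝ x.1 y.1 ⊆ Ω ∧
    ∃ u : ℂ, ‖u‖ = 1 ∧ Tangent Ω y.1 u ∧ y.2 = u ^ 2 * conj x.2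

/-- The points of the phase space fixed by the `n`-th iterate of the billiard map. -/
def PeriodicPoints (Ω : Set ℂ) (n : ℕ) : Set (ℂ × ℂ) :=
  {x | ∃ s : ℕ → ℂ × ℂ, s 0 = x ∧ s n = x ∧ ∀ j < n, Bounce Ω (s j) (s (j + 1))}

/-- An `n`-periodic point gives a closed billiard polygon that starts at it. -/
theorem polygon_of_periodic {Ω : Set ℂ} (hΩ : Table Ω) {n : ℕ} (hn : 0 < n) {x : ℂ × ℂ}
    (hx : x ∈ PeriodicPoints Ω n) : ∃ P : ℤ → ℂ, Polygon Ω n P ∧
      x = (P 0, (P 1 - P 0) / (‖P 1 - P 0‖ : ℝ)) := by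
  obtain ⟨s, h0, h1, h2⟩ := hx
  -- the periodic sequence of phase points
  set S : ℤ → ℂ × ℂ := fun j => s (j % n).toNat with hS
  have hn' : (0 : ℤ) < n := by exact_mod_cast hn
  have hper : ∀ j, S (j + n) = S j := by
    intro j
    simp [hS]
  have hb : ∀ j, Bounce Ω (S j) (S (j + 1)) := by
    intro j
    have hm0 := Int.emod_nonneg j hn'.ne'
    have hm1 := Int.emod_lt_of_pos j hn'
    obtain ⟨m, hm⟩ := Int.eq_ofNat_of_zero_le hm0
    have hmn : m < n := by omega
    have hj : j + 1 = ((m : ℤ) + 1) + n * (j / n) := by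
      have := Int.emod_add_mul_ediv j n
      rw [hm] at this
      push_cast at this
      linarith
    have e1 : S j = s m := by simp [hS, hm]
    have e2 : S (j + 1) = s (m + 1) := by
      have e3 : (j + 1) % n = ((m : ℤ) + 1) % n := by
        rw [hj, Int.add_mul_emod_self_left]
      rcases Nat.lt_or_ge (m + 1) n with h | h
      · have e4 : ((m : ℤ) + 1) % n = ((m + 1 : ℕ) : ℤ) := by
          rw [Int.emod_eq_of_lt (by omega) (by omega)]
          push_cast
          rfl
        simp only [hS, e3, e4, Int.toNat_natCast]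
      · have hm' : m + 1 = n := by omega
        have e4 : ((m : ℤ) + 1) % n = 0 := by
          have : (m : ℤ) + 1 = n := by exact_mod_cast hm'
          rw [this, Int.emod_self]
        simp only [hS, e3, e4]
        rw [hm', h1, ← h0]
        rfl
    rw [e1, e2]
    exact h2 m hmn
  have hS0 : S 0 = x := by simp [hS, h0]
  refine ⟨fun j => (S j).1, ⟨fun j => by simp only [hper], fun j => (hb j).1, ?_, ?_⟩, ?_⟩
  · intro j h
    obtain ⟨-, -, h3, ⟨t, ht, h4⟩, -⟩ := hb j
    rw [h4] at h
    have h5 : (t : ℂ) * (S j).2 = 0 := by linear_combination h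
    rcases mul_eq_zero.1 h5 with h6 | h6
    · exact ht.ne' (by exact_mod_cast h6)
    · rw [h6, norm_zero] at h3
      exact zero_ne_one h3
  · intro j w hw
    obtain ⟨-, -, h3, ⟨t, ht, h4⟩, -, u, hu, hu', h5⟩ := hb (j - 1)
    obtain ⟨-, -, -, ⟨t', ht', h4'⟩, -⟩ := hb j
    rw [sub_add_cancel] at h4 hu' h5
    have hc := hΩ.smooth _ (hb j).1 u w hu' hw
    unfold cr at hc
    have hv : (S (j - 1)).2 * conj (S (j - 1)).2 = 1 := by
      rw [Complex.mul_conj, Complex.normSq_eq_norm_sq, h3]
      simp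
    have e1 : (S j).1 - (S (j - 1)).1 = t * (S (j - 1)).2 := by rw [h4]; ring
    have e2 : (S (j + 1)).1 - (S j).1 = t' * (u ^ 2 * conj (S (j - 1)).2) := by
      rw [h4', h5]; ring
    have e3 : ((S j).1 - (S (j - 1)).1) * ((S (j + 1)).1 - (S j).1) * conj w ^ 2 =
        ((t * t' : ℝ) : ℂ) * (u * conj w) ^ 2 := by
      rw [e1, e2]
      push_cast
      linear_combination (t * t' * u ^ 2 * conj w ^ 2 : ℂ) * hv
    have e4 : (u * conj w).im = 0 := by
      have : u * conj w = conj (conj u * w) := by simp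
      rw [this, Complex.conj_im, hc, neg_zero]
    have e5 : (u * conj w) ^ 2 = (((u * conj w).re ^ 2 : ℝ) : ℂ) := by
      have : u * conj w = ((u * conj w).re : ℂ) := by
        apply Complex.ext
        · simp
        · rw [e4]; simp
      rw [this]
      push_cast
      simp
    rw [e3, e5, ← Complex.ofReal_mul]
    exact Complex.ofReal_im _
  · obtain ⟨-, -, h3, ⟨t, ht, h4⟩, -⟩ := hb 0
    rw [hS0] at h3 h4
    rw [zero_add] at h4
    simp only [hS0]
    refine Prod.ext rfl ?_
    simp only
    rw [h4, add_sub_cancel_left, norm_mul, h3, mul_one, Complex.norm_real, Real.norm_eq_abs,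
      abs_of_pos ht]
    have : (t : ℂ) ≠ 0 := by exact_mod_cast ht.ne'
    field_simp

/-- If there are finitely many closed polygons, there are finitely many periodic points. -/
theorem finite_periodic {Ω : Set ℂ} (hΩ : Table Ω) {n : ℕ} (hn : 0 < n)
    (h : {P : ℤ → ℂ | Polygon Ω n P}.Finite) : (PeriodicPoints Ω n).Finite := by
  refine (h.image fun P : ℤ → ℂ =>
    ((P 0, (P 1 - P 0) / (‖P 1 - P 0‖ : ℝ)) : ℂ × ℂ)).subset ?_
  intro x hx
  obtain ⟨P, hP, e⟩ := polygon_of_periodic hΩ hn hx
  exact ⟨P, hP, e.symm⟩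

/-- **Finitely many periodic points of each period.** Let the strictly convex table `Ω ⊆ ℂ` with
`C¹` boundary be bounded by (an oval of) the irreducible curve `P (z, conj z) = 0`.

(1) If the curve has isotropic tangents `X 0 = a`, `a ∈ F`, of contact orders `r a ≥ 2` and
isotropic asymptotes `X 0 = a`, `a ∈ G`, of contact orders `r a ≥ 1` with
`∑ a ∈ F, 2 * r a + ∑ a ∈ G, (2 * r a + 3) > 4 * deg P`, then the billiard map of `Ω` has only
finitely many points of period `n`, for every `n ≥ 1`.

(2) This is the case if `P` is a cubic, nonsingular in the affine plane and transversal to the line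
at infinity.

(3) In both cases the set of all periodic points is countable. -/
theorem result :
    (∀ Ω : Set ℂ, Table Ω → ∀ P : MvPolynomial (Fin 2) ℂ, Irreducible P →
      (∀ p ∈ frontier Ω, MvPolynomial.eval ![p, conj p] P = 0) →
      ∀ (F G : Finset ℂ) (r : ℂ → ℕ), H719FO.Hyp P F G r →
      (∀ n : ℕ, 0 < n → (PeriodicPoints Ω n).Finite) ∧
        {x | ∃ n : ℕ, 0 < n ∧ x ∈ PeriodicPoints Ω n}.Countable) ∧
    (∀ Ω : Set ℂ, Table Ω → ∀ P : MvPolynomial (Fin 2) ℂ, Irreducible P →
      (∀ p ∈ frontier Ω, MvPolynomial.eval ![p, conj p] P = 0) →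
      P.totalDegree = 3 → H719FO.Nsg P → H719FO.Trv P →
      (∀ n : ℕ, 0 < n → (PeriodicPoints Ω n).Finite) ∧
        {x | ∃ n : ℕ, 0 < n ∧ x ∈ PeriodicPoints Ω n}.Countable) := by
  have key : ∀ Ω : Set ℂ, Table Ω → ∀ P : MvPolynomial (Fin 2) ℂ, Irreducible P →
      (∀ p ∈ frontier Ω, MvPolynomial.eval ![p, conj p] P = 0) →
      ∀ (F G : Finset ℂ) (r : ℂ → ℕ), H719FO.Hyp P F G r →
      (∀ n : ℕ, 0 < n → (PeriodicPoints Ω n).Finite) ∧
        {x | ∃ n : ℕ, 0 < n ∧ x ∈ PeriodicPoints Ω n}.Countable := by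
    intro Ω hΩ P hP hf F G r hy
    have h1 : ∀ n : ℕ, 0 < n → (PeriodicPoints Ω n).Finite := fun n hn =>
      finite_periodic hΩ hn (H719FO.finite_polygons Ω hΩ P hP hf F G r hy n hn)
    refine ⟨h1, ?_⟩
    refine (Set.countable_iUnion fun n : ℕ => Set.Countable.mono
      (s₁ := {x | 0 < n ∧ x ∈ PeriodicPoints Ω n}) ?_
      (s₂ := if 0 < n then PeriodicPoints Ω n else ∅) ?_).mono ?_
    · rintro x ⟨h2, h3⟩
      simp [h2, h3]
    · split_ifs with h
      · exact (h1 n h).countable
      · exact Set.countable_empty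
    · rintro x ⟨n, h2, h3⟩
      exact Set.mem_iUnion.2 ⟨n, h2, h3⟩
  refine ⟨key, ?_⟩
  intro Ω hΩ P hP hf hd hn ht
  obtain ⟨F, G, r, hy⟩ :=
    H719FO.CUB_proof H719FO.CUB1_proof H719FO.CUB2_proof P hP hd hn ht
  exact key Ω hΩ P hP hf F G r hy

end Pool.Agent.Results.MP_249f74_an.FinitelyManyPeriodicOrbits
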